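import Pool.Agent.T2H19.ZA.FINL
import Pool.Agent.T2H19.ZA.T_APX
import Pool.Agent.T2H19.ZA.T_HALF
import Pool.Agent.T2H19.ZA.T_LIM
import Pool.Agent.T2H19.ZA.T_MMM
import Pool.Agent.T2H19.ZA.T_MS
import Pool.Agent.T2H19.ZA.T_PAR
import Pool.Agent.T2H19.ZA.T_POW
import Pool.Agent.T2H19.ZA.T_ROU
import Pool.Agent.T2H19.ZA.T_SHO
import Pool.Agent.T2H19.ZA.T_SUBM
import Pool.Agent.T2H19.ZA.T_SUMM
import Pool.Agent.T2H19.ZA.T_VB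
import Pool.Agent.H306R2.EPLim

/-!
# All moments of zeta near the critical line in almost all intervals

For every real `k > 0` the mean of `|ζ(1/2 + δ + it)|^(2k)` over `[α, α + T]` is, for almost all `α`
(density, `H → ∞`), equal to `∑ d_k(n)^2 n^(-1-2δ)` with relative error `δ^(-C) T^(-1/24)`, uniformly in
`0 < δ ≤ 1/8` and `T ≥ 1`; and it is asymptotic to `a(k) (2δ)^(-k^2)` as `δ → 0`, for `T ≥ δ^(-C)`.

Parts were formalized by the team (see the imported files); plan and assembly by helper19.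
-/

set_option autoImplicit false

open Filter Topology MeasureTheory

namespace Pool.Agent.Results.MP_973905_nt.AlmostAllIntervals

/-- `Γ(k+m) / (Γ(k) m!)` -/
noncomputable def g (k : ℝ) (m : ℕ) : ℝ := Real.Gamma (k + m) / (Real.Gamma k * (m.factorial : ℝ))

/-- The arithmetic factor `a(k)` of the problem. -/
noncomputable def a (k : ℝ) : ℝ :=
  ∏' p : Nat.Primes, ((1 - ((p : ℕ) : ℝ)⁻¹) ^ (k ^ 2) * ∑' m : ℕ, g k m ^ 2 * ((p : ℕ) : ℝ)⁻¹ ^ m)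

/-- The coefficient `d_k(n)` of `ζ(s)^k` (`n ≥ 1`): the product of `g k m` over the prime powers `p^m ∥ n`. -/
noncomputable def d (k : ℝ) (n : ℕ) : ℝ := n.factorization.prod fun _ m => g k m

/-- `∑_{n ≥ 1} d_k(n)^2 n^(-1-2δ)`. -/
noncomputable def D (k δ : ℝ) : ℝ := ∑' n : ℕ, d k (n + 1) ^ 2 * ((n + 1 : ℕ) : ℝ) ^ (-(1 + 2 * δ))

/-- The mean of `|ζ(1/2 + δ + it)|^(2k)` over `α ≤ t ≤ α + T`. -/
noncomputable def mean (k δ T α : ℝ) : ℝ :=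
  1 / T * ∫ t in α..(α + T), ‖riemannZeta (1 / 2 + (δ : ℂ) + (t : ℂ) * Complex.I)‖ ^ (2 * k)

open Pool.Agent.T2H19.ZA Pool.Agent.H306R2

lemma g_eq {k : ℝ} (hk : 0 < k) (m : ℕ) : g k m = lc k m := by
  unfold g
  rw [lc_eq_gamma hk, add_comm k, mul_comm (Real.Gamma k)]

lemma a_eq {k : ℝ} (hk : 0 < k) : a k = aF k := by
  unfold a aF
  refine tprod_congr fun p => ?_
  rw [one_div]
  congr 1
  exact tsum_congr fun m => by rw [g_eq hk]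

lemma d_eq {k : ℝ} (hk : 0 < k) (n : ℕ) (hn : n ≠ 0) : d k n = dv k n := by
  unfold d dv
  rw [if_neg hn]
  congr 1
  funext _ m
  exact g_eq hk m

lemma D_eq {k δ : ℝ} (hk : 0 < k) (hδ : 0 < δ) (hδ2 : δ ≤ 1 / 2) : D k δ = mo k δ := by
  obtain ⟨C, hC, h⟩ := T_SUMM k hk
  have hs := (h δ hδ hδ2).1
  unfold mo D
  rw [hs.tsum_eq_zero_add]
  have h0 : dv k 0 = 0 := by simp [dv]
  rw [h0]
  simp only [ne_eq, OfNat.ofNat_ne_zero, not_false_eq_true, zero_pow, zero_mul, zero_add]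
  exact tsum_congr fun n => by rw [d_eq hk (n + 1) (Nat.succ_ne_zero n)]

theorem result (k : ℝ) (hk : 0 < k) :
    (∃ C : ℝ, 0 < C ∧ ∀ ε : ℝ, 0 < ε → ∃ δ₀ : ℝ, 0 < δ₀ ∧ ∀ δ : ℝ, 0 < δ → δ ≤ δ₀ → ∀ T : ℝ, δ ^ (-C) ≤ T →
      ∃ H₀ : ℝ, ∀ H : ℝ, H₀ ≤ H →
        volume {α : ℝ | 0 ≤ α ∧ α ≤ H ∧ ε < |mean k δ T α / (a k * (2 * δ) ^ (-(k ^ 2))) - 1|} ≤
          ENNReal.ofReal (ε * H)) ∧
    (∃ C : ℝ, 0 < C ∧ ∀ δ : ℝ, 0 < δ → δ ≤ 1 / 8 → ∀ T : ℝ, 1 ≤ T → ∃ H₀ : ℝ, ∀ H : ℝ, H₀ ≤ H →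
      volume {α : ℝ | 0 ≤ α ∧ α ≤ H ∧ δ ^ (-C) * T ^ (-(1 / 24) : ℝ) < |mean k δ T α / D k δ - 1|} ≤
        ENNReal.ofReal (δ ^ (-C) * T ^ (-(1 / 24) : ℝ) * H)) ∧
    0 < a k ∧ Tendsto (fun δ : ℝ => (2 * δ) ^ (k ^ 2) * D k δ) (𝓝[>] 0) (𝓝 (a k)) := by
  have hSHO := T_SHO T_SUMM T_ROU T_HALF
  have hVB := T_VB T_SUMM hSHO
  have hMMM := T_MMM T_SUMM
  have hMS := T_MS T_PAR
  have ha : 0 < a k := by rw [a_eq hk]; exact aF_pos hk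
  have hlim0 : Tendsto (fun δ : ℝ => (2 * δ) ^ (k ^ 2) * mo k δ) (𝓝[>] 0) (𝓝 (a k)) := by
    rw [a_eq hk]
    exact T_LIM k hk
  have hfin := Fin.fin hMS T_SUBM hVB T_POW T_APX hMMM k hk
  have hlim : Tendsto (fun δ : ℝ => (2 * δ) ^ (k ^ 2) * D k δ) (𝓝[>] 0) (𝓝 (a k)) := by
    refine hlim0.congr' ?_
    have h1 : ∀ᶠ δ : ℝ in 𝓝[>] 0, δ ≤ 1 / 2 :=
      (eventually_le_nhds (show (0:ℝ) < 1 / 2 by norm_num)).filter_mono nhdsWithin_le_nhds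
    have h2 : ∀ᶠ δ : ℝ in 𝓝[>] 0, 0 < δ := eventually_mem_nhdsWithin
    filter_upwards [h1, h2] with δ h3 h4
    rw [D_eq hk h4 h3]
  refine ⟨?_, ?_, ha, hlim⟩
  · exact Fin.finL (mean k) (mo k) (a k) k ha
      (fun δ h1 h2 => lt_of_lt_of_le one_pos (hMMM k δ hk h1 (by linarith)).2.1) hlim0 hfin
  · obtain ⟨C, hC, h⟩ := hfin
    refine ⟨C, hC, fun δ hδ hδ8 T hT => ?_⟩
    rw [D_eq hk hδ (by linarith)]
    exact h δ hδ hδ8 T hT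

end Pool.Agent.Results.MP_973905_nt.AlmostAllIntervals
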