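import Pool.Agent.T2H98.UK.All

set_option autoImplicit false

/-!
# MP_973905_nt: moments of all real orders of Gonek's model of the Hardy function, for almost every twist

For a sequence `θ` of real numbers in `[0,1]` let `f = twist θ` be the completely multiplicative
function with `f(p) = e^{2πiθ_p}`, let `ζ_y(f; t) = ∏_{p ≤ y} (1 - f(p) p^{-1/2-it})⁻¹` and
`Z_y(f; t) = 2 Re (e^{iφ(t)} ζ_y(f; t))`, `φ(t) = (t/2) log(t/2πe) - π/8` (the phase of the functional equation).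
For almost every `θ`, for all real `k > 0` at once, uniformly for `y → ∞` with `y ≤ T^{2-η}` (any `η > 0`),
`(1/T) ∫_T^{2T} |Z_y(f; t)|^{2k} dt = (Γ(2k+1)/Γ(k+1)² a(k) + o(1)) (e^γ log y)^{k²}`; in particular with `y = ⌊T⌋`.

Idea: helper54. The packages of the project were formalized by the team (files `Pool/Agent/T2H98/{UK,EF,EP,RS,RT}/`).
-/

open MeasureTheory Filter Topology

namespace Pool.Agent.Results.MP_973905_nt.HardyTwistsAllOrders

instance : IsProbabilityMeasure (volume.restrict (Set.Icc (0 : ℝ) 1)) := ⟨by simp⟩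

/-- The law of a sequence of independent real numbers, each uniform in `[0, 1]`. -/
noncomputable def law : Measure (ℕ → ℝ) :=
  Measure.infinitePi fun _ : ℕ => volume.restrict (Set.Icc (0 : ℝ) 1)

/-- The function `f(n) = exp(2πi ∑_p v_p(n) θ_p)`: completely multiplicative, `f(p) = e^{2πiθ_p}`. -/
noncomputable def twist (θ : ℕ → ℝ) (n : ℕ) : ℂ :=
  Complex.exp (2 * Real.pi * (∑ p ∈ n.primeFactors, (n.factorization p : ℝ) * θ p : ℝ) * Complex.I)

/-- `ζ_y(f; t) = ∏_{p ≤ y} (1 - f(p) p^{-1/2-it})⁻¹`, over the primes `p ≤ y`. -/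
noncomputable def eulerProd (f : ℕ → ℂ) (y : ℕ) (t : ℝ) : ℂ :=
  ∏ p ∈ (Finset.Icc 1 y).filter Nat.Prime, (1 - f p * (p : ℂ) ^ (-(1 / 2 : ℂ) - t * Complex.I))⁻¹

/-- The phase `φ(t) = (t/2) log(t/2πe) - π/8` of the Riemann-Siegel formula. -/
noncomputable def phase (t : ℝ) : ℝ := t / 2 * Real.log (t / (2 * Real.pi * Real.exp 1)) - Real.pi / 8

/-- `Z_y(f; t) = 2 Re (e^{iφ(t)} ζ_y(f; t))`. -/
noncomputable def Z (f : ℕ → ℂ) (y : ℕ) (t : ℝ) : ℝ := 2 * (Complex.exp (phase t * Complex.I) * eulerProd f y t).re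

/-- `(1/T) ∫_T^{2T} |Z_y(f; t)|^{2k} dt`. -/
noncomputable def moment (f : ℕ → ℂ) (k : ℝ) (y : ℕ) (T : ℝ) : ℝ := 1 / T * ∫ t in T..(2 * T), |Z f y t| ^ (2 * k)

/-- The arithmetic factor `a(k)` of the moment conjecture, as in the problem. -/
noncomputable def a (k : ℝ) : ℝ :=
  ∏' p : Nat.Primes, ((1 - 1 / (p : ℝ)) ^ (k ^ 2) *
    ∑' m : ℕ, (Real.Gamma (k + m) / (Real.Gamma k * (m.factorial : ℝ))) ^ 2 / (p : ℝ) ^ m)

lemma a_eq (k : ℝ) (hk : 0 < k) : a k = Pool.Agent.H306R2.aF k := by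
  have e1 : ∀ m : ℕ, Real.Gamma (k + m) / (Real.Gamma k * (m.factorial : ℝ)) = Pool.Agent.H306R2.lc k m := by
    intro m
    have hG : Real.Gamma k ≠ 0 := (Real.Gamma_pos_of_pos hk).ne'
    induction m with
    | zero =>
      unfold Pool.Agent.H306R2.lc
      simp [hG]
    | succ m ih =>
      have h1 : Pool.Agent.H306R2.lc k (m + 1) = Pool.Agent.H306R2.lc k m * ((k + m) / ((m : ℝ) + 1)) := by
        unfold Pool.Agent.H306R2.lc
        rw [Finset.prod_range_succ]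
      have hkm : k + (m : ℝ) ≠ 0 := by positivity
      have h2 : Real.Gamma (k + ((m + 1 : ℕ) : ℝ)) = (k + m) * Real.Gamma (k + m) := by
        rw [← Real.Gamma_add_one hkm]
        congr 1
        push_cast
        ring
      rw [h1, ← ih, h2, Nat.factorial_succ]
      push_cast
      have hm1 : (m : ℝ) + 1 ≠ 0 := by positivity
      have hf : (m.factorial : ℝ) ≠ 0 := by positivity
      field_simp
  unfold a Pool.Agent.H306R2.aF
  refine tprod_congr fun p => ?_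
  congr 1
  refine tsum_congr fun m => ?_
  rw [e1, one_div, inv_pow, div_eq_mul_inv]

theorem result :
    (∀ k : ℝ, 0 < k → 0 < a k) ∧
    ∀ᵐ θ ∂law, ∀ k : ℝ, 0 < k →
      (∀ η : ℝ, 0 < η → ∀ ε : ℝ, 0 < ε → ∃ (y₀ : ℕ) (T₀ : ℝ), ∀ (T : ℝ) (y : ℕ), T₀ ≤ T → y₀ ≤ y →
        (y : ℝ) ≤ T ^ (2 - η) →
        |moment (twist θ) k y T - Real.Gamma (2 * k + 1) / Real.Gamma (k + 1) ^ 2 *
            (a k * Real.exp (Real.eulerMascheroniConstant * k ^ 2)) * Real.log y ^ (k ^ 2)| ≤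
          ε * Real.log y ^ (k ^ 2)) ∧
      Tendsto (fun T : ℝ => moment (twist θ) k ⌊T⌋₊ T / Real.log T ^ (k ^ 2)) atTop
        (𝓝 (Real.Gamma (2 * k + 1) / Real.Gamma (k + 1) ^ 2 *
          (a k * Real.exp (Real.eulerMascheroniConstant * k ^ 2)))) := by
  refine ⟨fun k hk => by rw [a_eq k hk]; exact Pool.Agent.H306R2.aF_pos hk, ?_⟩
  have h := Pool.Agent.T2H98.UK.uH
  have hlaw : law = Pool.Agent.T2H98.RT.P := rfl
  rw [hlaw]
  filter_upwards [h] with θ hθall k hk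
  have hak := a_eq k hk
  have hθ := hθall k hk
  have hθ' : ∀ η : ℝ, 0 < η → ∀ ε : ℝ, 0 < ε → ∃ (y₀ : ℕ) (T₀ : ℝ), ∀ (T : ℝ) (y : ℕ), T₀ ≤ T → y₀ ≤ y →
        (y : ℝ) ≤ T ^ (2 - η) →
        |moment (twist θ) k y T - Real.Gamma (2 * k + 1) / Real.Gamma (k + 1) ^ 2 *
            (a k * Real.exp (Real.eulerMascheroniConstant * k ^ 2)) * Real.log y ^ (k ^ 2)| ≤
          ε * Real.log y ^ (k ^ 2) := by
    rw [hak, ← Pool.Agent.T2H98.EF.pCCG k hk]
    exact hθ
  refine ⟨hθ', ?_⟩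
  set c : ℝ := Real.Gamma (2 * k + 1) / Real.Gamma (k + 1) ^ 2 *
    (a k * Real.exp (Real.eulerMascheroniConstant * k ^ 2)) with hc
  have h1 := hθ' 1 one_pos
  have hlog : Tendsto (fun T : ℝ => Real.log ⌊T⌋₊ / Real.log T) atTop (𝓝 1) := by
    have hb : Tendsto (fun T : ℝ => 1 - Real.log 2 / Real.log T) atTop (𝓝 1) := by
      have : Tendsto (fun T : ℝ => Real.log 2 / Real.log T) atTop (𝓝 0) :=
        tendsto_const_nhds.div_atTop Real.tendsto_log_atTop
      simpa using this.const_sub 1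
    refine tendsto_of_tendsto_of_tendsto_of_le_of_le' hb tendsto_const_nhds ?_ ?_
    · filter_upwards [eventually_ge_atTop 2] with T hT
      have hl : 0 < Real.log T := Real.log_pos (by linarith)
      have hfl : T / 2 ≤ ⌊T⌋₊ := by
        have := Nat.lt_floor_add_one T
        linarith
      have h2 : Real.log (T / 2) ≤ Real.log ⌊T⌋₊ := Real.log_le_log (by linarith) hfl
      rw [Real.log_div (by linarith) (by norm_num)] at h2
      rw [le_div_iff₀ hl, sub_mul, one_mul, div_mul_cancel₀ _ hl.ne']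
      exact h2
    · filter_upwards [eventually_ge_atTop 2] with T hT
      have hl : 0 < Real.log T := Real.log_pos (by linarith)
      have hfl : (1:ℝ) ≤ ⌊T⌋₊ := by
        exact_mod_cast (Nat.le_floor (by push_cast; linarith) : 1 ≤ ⌊T⌋₊)
      rw [div_le_one hl]
      exact Real.log_le_log (by linarith) (Nat.floor_le (by linarith))
  have h2 : Tendsto (fun T : ℝ => moment (twist θ) k ⌊T⌋₊ T / Real.log ⌊T⌋₊ ^ (k ^ 2)) atTop (𝓝 c) := by
    rw [Metric.tendsto_atTop]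
    intro ε hε
    obtain ⟨N₀, T₀, h3⟩ := h1 (ε / 2) (by positivity)
    refine ⟨max (max T₀ (N₀ + 1)) 3, fun T hT => ?_⟩
    have t1 : T₀ ≤ T := (le_max_left _ _).trans ((le_max_left _ _).trans hT)
    have t2 : (N₀ : ℝ) + 1 ≤ T := (le_max_right _ _).trans ((le_max_left _ _).trans hT)
    have t3 : 3 ≤ T := (le_max_right _ _).trans hT
    have t4 : N₀ ≤ ⌊T⌋₊ := Nat.le_floor (by linarith)
    have t5 : ((⌊T⌋₊ : ℕ) : ℝ) ≤ T ^ ((2:ℝ) - 1) := by
      rw [show (2:ℝ) - 1 = 1 by norm_num, Real.rpow_one]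
      exact Nat.floor_le (by linarith)
    have h4 := h3 T ⌊T⌋₊ t1 t4 t5
    have hl : 0 < Real.log ⌊T⌋₊ := by
      refine Real.log_pos ?_
      have : ((2:ℕ):ℝ) ≤ ⌊T⌋₊ := by exact_mod_cast Nat.le_floor (by push_cast; linarith)
      push_cast at this
      linarith
    have hlp : 0 < Real.log ⌊T⌋₊ ^ (k ^ 2) := by positivity
    rw [Real.dist_eq]
    have e1 : moment (twist θ) k ⌊T⌋₊ T / Real.log ⌊T⌋₊ ^ (k ^ 2) - c =
        (moment (twist θ) k ⌊T⌋₊ T - c * Real.log ⌊T⌋₊ ^ (k ^ 2)) / Real.log ⌊T⌋₊ ^ (k ^ 2) := by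
      field_simp
    rw [e1, abs_div, abs_of_pos hlp, div_lt_iff₀ hlp]
    refine lt_of_le_of_lt h4 ?_
    nlinarith
  have h3 := h2.mul (hlog.rpow_const (p := k ^ 2) (Or.inl one_ne_zero))
  rw [Real.one_rpow, mul_one] at h3
  refine h3.congr' ?_
  filter_upwards [eventually_ge_atTop 3] with T hT
  have hl : 0 < Real.log ⌊T⌋₊ := by
    refine Real.log_pos ?_
    have : ((2:ℕ):ℝ) ≤ ⌊T⌋₊ := by exact_mod_cast Nat.le_floor (by push_cast; linarith)
    push_cast at this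
    linarith
  have hl2 : 0 < Real.log T := Real.log_pos (by linarith)
  rw [Real.div_rpow hl.le hl2.le]
  have p1 : 0 < Real.log ⌊T⌋₊ ^ (k ^ 2) := by positivity
  have p2 : 0 < Real.log T ^ (k ^ 2) := by positivity
  field_simp

end Pool.Agent.Results.MP_973905_nt.HardyTwistsAllOrders
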